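import Pool.Agent.MEY.All2
import Pool.Agent.MEV.Fin
import Pool.Agent.MEZ.AllZ
import Pool.Agent.PLim.Final
import Pool.Agent.CGP.Final2
import Pool.Prelude.Def_F_c31e40fa

set_option autoImplicit false

open N62a1eb23 Topology

namespace Pool.Agent.Results.MP_fcb70f_an.Extension

/-- `z` is a periodic point of `z ^ n + c` of exact period `k`, with multiplier `w`. -/
def Cycle (n k : ℕ) (c z w : ℂ) : Prop :=
  1 ≤ k ∧ (fun z => z ^ n + c)^[k] z = z ∧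
    (∀ j : ℕ, 0 < j → j < k → (fun z => z ^ n + c)^[j] z ≠ z) ∧
    deriv (fun z => z ^ n + c)^[k] z = w

/-- `|w| < 1 + t (arg w) ^ 2`, where `-π < arg w ≤ π`: a neighbourhood of the closed unit disc
without the point `1`. -/
def U (t : ℝ) : Set ℂ := {w : ℂ | ‖w‖ < 1 + t * w.arg ^ 2}

/-- The preimage of `U t` under `v ^ (n - 1)`. -/
def D (n : ℕ) (t : ℝ) : Set ℂ := {v : ℂ | v ^ (n - 1) ∈ U t}

/-- `|b x - m| ≥ δ` for all integers `m` and `1 ≤ b ≤ 6 (R + 1)`. -/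
def Far (R : ℕ) (δ x : ℝ) : Prop := ∀ b : ℕ, 1 ≤ b → b ≤ 6 * (R + 1) → ∀ m : ℤ, δ ≤ |b * x - m|

/-- `L δ = δ ^ 2 / (1 + log (1 / δ)) ^ 2`. -/
noncomputable def L (δ : ℝ) : ℝ := δ ^ 2 / (1 + Real.log (1 / δ)) ^ 2

/-- A neighbourhood of the closed unit disc without the roots of unity of order at most
`6 (R + 1)`. -/
def V (R : ℕ) (t : ℝ) : Set ℂ :=
  {w : ℂ | ‖w‖ < 1 ∨ ∃ δ : ℝ, 0 < δ ∧ Far R δ (w.arg / (2 * Real.pi)) ∧ ‖w‖ < 1 + t * L δ}

/-- The preimage of `V R t` under `v ^ (n - 1)`. -/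
def E (R n : ℕ) (t : ℝ) : Set ℂ := {v : ℂ | v ^ (n - 1) ∈ V R t}

/-- `A` is a `p / q`-limb of period `k` with root `r` of the Multibrot set `M` of power `n`: the map
`z ^ n + r` has a cycle of exact period `k` with multiplier `exp (2 π i p / q)`, where `0 < p < q`
are coprime, and `A` is an open and closed subset of `M \ {r}` which does not contain `0`. -/
def IsLimb (n k p q : ℕ) (r : ℂ) (A : Set ℂ) : Prop :=
  0 < p ∧ p < q ∧ p.Coprime q ∧
  (∃ z : ℂ, Cycle n k r z (Complex.exp (2 * Real.pi * Complex.I * p / q))) ∧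
  (0 : ℂ) ∉ A ∧ (∃ U : Set ℂ, IsOpen U ∧ A = (multibrotSet n \ {r}) ∩ U) ∧
  ∃ V : Set ℂ, IsOpen V ∧ (multibrotSet n \ {r}) \ A = (multibrotSet n \ {r}) ∩ V

/-! ### translation -/

section translation

open Pool.Agent.MEY Pool.Agent.MEV
open Pool.Agent.MEZ (Fz)

lemma cyc_iff {n k : ℕ} {c z w : ℂ} : Cycle n k c z w ↔ 1 ≤ k ∧ Pt n k c z w :=
  ⟨fun h => ⟨h.1, h.2.1, h.2.2.1, h.2.2.2⟩, fun h => ⟨h.1, h.2.fix, h.2.exa, h.2.mul⟩⟩

lemma L_eq (δ : ℝ) : L δ = Pool.Agent.MEX.LL δ := rfl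

lemma L_nonneg (δ : ℝ) : 0 ≤ L δ := div_nonneg (sq_nonneg _) (sq_nonneg _)

lemma far_iff {R : ℕ} {δ x : ℝ} : Far R δ (x / (2 * Real.pi)) ↔ FarN (6 * (R + 1)) δ x := by
  have h : ∀ b : ℕ, (b : ℝ) * (x / (2 * Real.pi)) = b * x / (2 * Real.pi) := fun b => by ring
  constructor
  · intro h1 b hb1 hb6 m
    have := h1 b hb1 hb6 m
    rwa [h] at this
  · intro h1 b hb1 hb6 m
    rw [h]
    exact h1 b hb1 hb6 m

lemma far_half {R : ℕ} {δ x : ℝ} (h : Far R δ x) : δ ≤ 1 / 2 := by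
  have h5 : |x - round x| ≤ 1 / 2 := abs_sub_round _
  have h6 := h 1 le_rfl (by omega) (round x)
  rw [Nat.cast_one, one_mul] at h6
  exact h6.trans h5

lemma L_le {δ : ℝ} (h0 : 0 < δ) (h1 : δ ≤ 1 / 2) : L δ ≤ δ ^ 2 := by
  have h7 : 0 ≤ Real.log (1 / δ) := Real.log_nonneg (by
    rw [le_div_iff₀ h0]
    linarith)
  unfold L
  refine div_le_self (by positivity) ?_
  nlinarith

lemma L_pos {δ : ℝ} (h0 : 0 < δ) (h1 : δ ≤ 1 / 2) : 0 < L δ := by
  have h7 : 0 ≤ Real.log (1 / δ) := Real.log_nonneg (by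
    rw [le_div_iff₀ h0]
    linarith)
  unfold L
  positivity

lemma V_sub {R : ℕ} {t : ℝ} (ht : 0 < t) : V R t ⊆ UU (6 * (R + 1)) t := by
  intro w hw
  by_cases h0 : w = 0
  · exact Or.inl h0
  have hw0 : 0 < ‖w‖ := norm_pos_iff.2 h0
  refine Or.inr ?_
  rcases hw with hw | ⟨δ, hδ, hF, hw⟩
  · exact Or.inl (by rw [Complex.log_re]; exact Real.log_neg hw0 hw)
  · refine Or.inr ⟨δ, hδ, far_half hF, ?_, ?_⟩
    · rw [Complex.log_im]
      exact far_iff.1 hF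
    · rw [Complex.log_re, ← L_eq]
      have h1 := Real.log_lt_sub_one_of_pos hw0
      have h2 := L_pos hδ (far_half hF)
      by_cases h3 : ‖w‖ = 1
      · rw [h3, Real.log_one]
        positivity
      · have := h1 h3
        linarith

lemma E_sub {R n : ℕ} {t : ℝ} (hn : 2 ≤ n) (ht : 0 < t) : E R n t ⊆ DD n (6 * (R + 1)) t := by
  intro v hv
  by_cases h0 : v = 0
  · exact Or.inl h0
  refine Or.inr ?_
  have hn1 : n - 1 ≠ 0 := by omega
  have h1 : v ^ (n - 1) ∈ UU (6 * (R + 1)) t := V_sub ht hv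
  rcases h1 with h1 | h1
  · exact absurd (eq_zero_of_pow_eq_zero h1) h0
  · have h2 : Complex.exp (((n - 1 : ℕ) : ℂ) * Complex.log v) =
        Complex.exp (Complex.log (v ^ (n - 1))) := by
      rw [Complex.exp_nat_mul, Complex.exp_log h0, Complex.exp_log (pow_ne_zero _ h0)]
    rw [Complex.exp_eq_exp_iff_exists_int] at h2
    obtain ⟨m, hm⟩ := h2
    rw [hm]
    have h3 := ((a_OMG (6 * (R + 1)) t ht).2.1 (Complex.log (v ^ (n - 1))) m).2 h1
    have h4 : Complex.log (v ^ (n - 1)) + m * (2 * Real.pi * Complex.I) =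
        Complex.log (v ^ (n - 1)) + 2 * Real.pi * Complex.I * m := by ring
    rw [h4]
    exact h3

lemma omg_mono {N : ℕ} {κ κ' : ℝ} (h : κ' ≤ κ) : Omg N κ' ⊆ Omg N κ := by
  rintro μ (hμ | ⟨δ, h1, h2, h3, h4⟩)
  · exact Or.inl hμ
  · refine Or.inr ⟨δ, h1, h2, h3, h4.trans_le ?_⟩
    exact mul_le_mul_of_nonneg_right h (L_nonneg δ)

/-- the region of Extension is contained in the region of the final form -/
lemma omg_oz {N : ℕ} {κ κ' : ℝ} (hN : 1 ≤ N) (h0 : 0 < κ') (h : κ' ≤ κ) :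
    Omg N κ' ⊆ Oz κ := by
  rintro μ (hμ | ⟨δ, h1, h2, h3, h4⟩)
  · exact Or.inl hμ
  · refine Or.inr ⟨δ, h1, ?_, h4.trans_le ?_⟩
    · intro m
      have := h3 1 le_rfl hN m
      rwa [Nat.cast_one, one_mul] at this
    · have h5 := L_le h1 h2
      rw [L_eq] at h5
      exact mul_le_mul h h5 (L_nonneg δ) (h0.le.trans h)

lemma glob_of {n k N : ℕ} {κ κ' : ℝ} {c : ℂ} {Ψ X : ℂ → ℂ} (hN : 1 ≤ N) (h0 : 0 < κ')
    (h : κ' ≤ κ) (hG : GlW n k (Oz κ) c Ψ X) : Glob n k N κ' c Ψ X := by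
  have hs : DD n N κ' ⊆ DW n (Oz κ) := by
    rintro v (hv | hv)
    · exact Or.inl hv
    · exact Or.inr (omg_oz hN h0 h hv)
  exact ⟨hG.dΨ.mono hs, hG.dX.mono hs, hG.zero, hG.X0, fun w hw => hG.pt w (hs hw),
    fun w hw => hG.d w (hs hw)⟩

/-- the distance of `p / q` from the integers -/
lemma fz_pq {p q : ℕ} (hp : 0 < p) (hpq : p < q) :
    0 < min ((p : ℝ) / q) (1 - p / q) ∧
      Fz (min ((p : ℝ) / q) (1 - p / q)) (2 * Real.pi * p / q) := by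
  have hq : (0 : ℝ) < q := by exact_mod_cast hp.trans hpq
  have h1 : (0 : ℝ) < p / q := div_pos (by exact_mod_cast hp) hq
  have h2 : (p : ℝ) / q < 1 := by
    rw [div_lt_one hq]
    exact_mod_cast hpq
  refine ⟨lt_min h1 (by linarith), fun m => ?_⟩
  have e : 2 * Real.pi * p / q / (2 * Real.pi) = (p / q : ℝ) := by
    have : (Real.pi : ℝ) ≠ 0 := Real.pi_ne_zero
    field_simp
  rw [e]
  rcases le_or_gt m 0 with hm | hm
  · have hm' : (m : ℝ) ≤ 0 := by exact_mod_cast hm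
    refine (min_le_left _ _).trans ?_
    have := le_abs_self ((p : ℝ) / q - m)
    linarith
  · have hm' : (1 : ℝ) ≤ m := by exact_mod_cast hm
    refine (min_le_right _ _).trans ?_
    have := neg_le_abs ((p : ℝ) / q - m)
    linarith

/-- the root of unity is in the smaller region -/
lemma root_mem {R p q : ℕ} {t δ : ℝ} (ht : 0 < t) (hδ : 0 < δ) (hF : Far R δ (p / q)) :
    Complex.exp (2 * Real.pi * Complex.I * p / q) ∈ V R t := by
  obtain ⟨μ, hμ⟩ : ∃ μ : ℂ, μ = 2 * Real.pi * Complex.I * p / q := ⟨_, rfl⟩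
  have e : μ = ((2 * Real.pi * (p / q) : ℝ) : ℂ) * Complex.I := by
    rw [hμ]
    push_cast
    ring
  have him : μ.im = (p / q) * (2 * Real.pi) := by
    rw [e]
    simp
    ring
  have hre : μ.re = 0 := by
    rw [e]
    simp
  rw [← hμ]
  right
  refine ⟨δ, hδ, ?_, ?_⟩
  · have h1 : ∃ m : ℤ, (Complex.exp μ).arg = μ.im + 2 * Real.pi * m := by
      have h2 := Complex.exp_log (Complex.exp_ne_zero μ)
      rw [Complex.exp_eq_exp_iff_exists_int] at h2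
      obtain ⟨m, hm⟩ := h2
      refine ⟨m, ?_⟩
      have h3 := congrArg Complex.im hm
      rw [Complex.log_im] at h3
      rw [h3]
      simp
      ring
    obtain ⟨m, hm⟩ := h1
    intro b hb hbN i
    have h2 := hF b hb hbN (i - b * m)
    have h3 : (b : ℝ) * ((Complex.exp μ).arg / (2 * Real.pi)) - i =
        b * (p / q) - ((i - b * m : ℤ) : ℝ) := by
      rw [hm, him]
      push_cast
      have : (Real.pi : ℝ) ≠ 0 := Real.pi_ne_zero
      field_simp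
      ring
    rw [h3]
    exact h2
  · rw [Complex.norm_exp, hre, Real.exp_zero]
    have := L_pos hδ (far_half hF)
    have h2 : 0 < t * L δ := by positivity
    linarith

end translation

/-- **Absolute extension of the multiplier maps of the Multibrot sets.** -/
theorem result : ∀ R : ℕ, 1 ≤ R → ∃ t C : ℝ, 0 < t ∧ ∀ n : ℕ, 2 ≤ n →
    ∃ P X : ℕ → ℂ → ℂ → ℂ,
      (∀ (k : ℕ) (a : ℂ), Cycle n k a 0 0 → DifferentiableOn ℂ (P k a) (D n t) ∧
        Set.InjOn (P k a) (E R n t) ∧ P k a 0 = a ∧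
        ∀ v ∈ D n t, deriv (P k a) v ≠ 0 ∧ Cycle n k (P k a v) (X k a v) (v ^ (n - 1))) ∧
      (∀ (k : ℕ) (c z w : ℂ), Cycle n k c z w → w ∈ U t →
        ∃ a v : ℂ, Cycle n k a 0 0 ∧ v ^ (n - 1) = w ∧ P k a v = c ∧
          ∃ j : ℕ, (fun z => z ^ n + c)^[j] (X k a v) = z) ∧
      (∀ (k k' : ℕ) (a a' : ℂ), Cycle n k a 0 0 → Cycle n k' a' 0 0 → k ≤ R * k' → k' ≤ R * k →
        a ≠ a' → Disjoint (P k a '' E R n t) (P k' a' '' E R n t)) ∧
      (∀ (k k' : ℕ) (c z z' w w' : ℂ), Cycle n k c z w → Cycle n k' c z' w' → k ≤ R * k' →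
        k' ≤ R * k → w ∈ V R t → w' ∈ V R t → ∃ j : ℕ, (fun z => z ^ n + c)^[j] z = z') ∧
      (∀ (k p q : ℕ) (r : ℂ) (A : Set ℂ), IsLimb n k p q r A →
        C * Real.log n * k < q * (min ((p : ℝ) / q) (1 - p / q)) ^ 2 →
        ∃ a v₀ : ℂ, Cycle n k a 0 0 ∧
          v₀ ^ (n - 1) = Complex.exp (2 * Real.pi * Complex.I * p / q) ∧ P k a v₀ = r ∧ ∀ c ∈ A,
          (∃ v ∈ D n t, P k a v = c ∧ dist v v₀ ≤ C * Real.log n * k / ((n - 1) * q)) ∧
          ∀ δ : ℝ, 0 < δ → Far R δ (p / q) → C * Real.log n * k < q * L δ → dist c r ≤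
            C * Real.log n * k / (q * L δ) * Metric.diam (P k a '' Metric.ball 0 1)) ∧
      ∀ (k k' : ℕ) (a v z w : ℂ), Cycle n k a 0 0 → ‖v‖ < 1 → k ≤ R * k' →
        Cycle n k' (P k a v) z w → 1 < ‖w‖ → 1 + t * (1 - ‖v‖) ≤ ‖w‖ := by
  classical
  open Pool.Agent.MEY Pool.Agent.MEV in
  intro R hR
  have hpi := Real.pi_gt_three
  obtain ⟨κE, hκE, hκE1, -, hGE, hUE, -⟩ := a_EXM R hR
  obtain ⟨κ₀, hκ₀, hN₀⟩ := Pool.Agent.MEZ.a_NCZ
  obtain ⟨e₅, he₅, hgap⟩ := Pool.Agent.CGP.a_GPC R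
  obtain ⟨κ, hκ, hκ1, hκE', hκ5, hN⟩ : ∃ κ : ℝ, 0 < κ ∧ κ ≤ 1 ∧ κ ≤ κE ∧ κ ≤ e₅ ∧
      Pool.Agent.MEZ.NCZk κ :=
    ⟨min (min κ₀ κE) e₅, lt_min (lt_min hκ₀ hκE) he₅,
      (min_le_left _ _).trans ((min_le_right _ _).trans hκE1),
      (min_le_left _ _).trans (min_le_right _ _), min_le_right _ _,
      ncz_mono ((min_le_left _ _).trans (min_le_left _ _)) hN₀⟩
  obtain ⟨C₁, hC₁, hfin⟩ := fin hκ hκ1 hN
  obtain ⟨t, ht⟩ : ∃ t : ℝ, t = κ / (4 * Real.pi ^ 2) := ⟨_, rfl⟩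
  have ht0 : 0 < t := by rw [ht]; positivity
  have htκ : t ≤ κ := by
    rw [ht]
    refine div_le_self hκ.le ?_
    nlinarith
  have htE : t ≤ κE := htκ.trans hκE'
  have hG2 : GODk (6 * (R + 1)) t := fun n k c z μ h1 h2 h3 h4 =>
    hGE n k c z μ h1 h2 (omg_mono htE h3) h4
  have hU2 : NCUk R t := fun n k k' c z z' μ μ' h1 h2 h3 h4 h5 h6 h7 h8 h9 =>
    hUE n k k' c z z' μ μ' h1 h2 h3 h4 h5 h6 h7 (omg_mono htE h8) (omg_mono htE h9)
  obtain ⟨C₂, hC₂, hlim⟩ := a_LIMBN R t hR ht0 (htκ.trans hκ1) hG2 hU2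
  obtain ⟨a, ha, hO⟩ := Pool.Agent.MEX.FINX_.omx
  have hIJ := a_IJG R t hR ht0 hG2 hU2
  refine ⟨t, C₁ + C₂ * a, ht0, ?_⟩
  intro n hn
  obtain ⟨P, X, hP, hcov, hlimb⟩ := hfin n hn
  rw [← ht] at hcov hlimb
  have hgl : ∀ (k : ℕ) (a : ℂ), 1 ≤ k → Pt n k a 0 0 →
      Glob n k (6 * (R + 1)) t a (P k a) (X k a) := fun k a h1 h2 =>
    glob_of (by omega) ht0 htκ (hP k a h1 h2)
  have hn2 : (2 : ℝ) ≤ n := by exact_mod_cast hn
  have hlog : 0 < Real.log n := Real.log_pos (by linarith)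
  refine ⟨P, X, ?_, ?_, ?_, ?_, ?_, ?_⟩
  · intro k a h
    obtain ⟨hk, hp⟩ := cyc_iff.1 h
    have h1 := hP k a hk hp
    have hD : ∀ v ∈ D n t, v ∈ DW n (Oz κ) := fun v hv => mem_dw hκ (by
      rw [← ht]
      exact hv)
    refine ⟨h1.dΨ.mono hD, ?_, h1.zero, fun v hv => ⟨h1.d v (hD v hv), cyc_iff.2 ⟨hk,
      h1.pt v (hD v hv)⟩⟩⟩
    intro w hw w' hw' he
    have hkR : k ≤ R * k := Nat.le_mul_of_pos_left k hR
    obtain ⟨-, -, ζ, -, h2, h3⟩ := hIJ n k k a a _ _ _ _ w w' hn hk hk hkR hkR (hgl k a hk hp)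
      (hgl k a hk hp) (E_sub hn ht0 hw) (E_sub hn ht0 hw') he
    have := EXM_.rot_one hn (hgl k a hk hp) h3
    rw [h2, this, one_mul]
  · intro k c z w hz hw
    obtain ⟨hk, hz⟩ := cyc_iff.1 hz
    obtain ⟨b, v, hb, hv, hvc, hj⟩ := hcov k c z w hk hz hw
    exact ⟨b, v, cyc_iff.2 ⟨hk, hb⟩, hv, hvc, hj⟩
  · intro k k' a a' h h' hk1 hk2 hne
    obtain ⟨hk, h⟩ := cyc_iff.1 h
    obtain ⟨hk', h'⟩ := cyc_iff.1 h'
    rw [Set.disjoint_left]
    rintro _ ⟨v, hv, rfl⟩ ⟨v', hv', he⟩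
    exact hne (hIJ n k k' a a' _ _ _ _ v v' hn hk hk' hk1 hk2 (hgl k a hk h)
      (hgl k' a' hk' h') (E_sub hn ht0 hv) (E_sub hn ht0 hv') he.symm).2.1
  · intro k k' c z z' w w' h3 h4 h1 h2 hw hw'
    obtain ⟨hk, h3⟩ := cyc_iff.1 h3
    obtain ⟨hk', h4⟩ := cyc_iff.1 h4
    exact Pool.Agent.MEY.a_NCZ R t ht0 hU2 n k k' c z z' w w' hn hk hk' h1 h2 h3 h4
      (V_sub ht0 hw) (V_sub ht0 hw')
  · intro k p q r A hA hlt
    obtain ⟨hp, hpq, hcop, hz, h0, hAU, hAV⟩ := hA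
    obtain ⟨z, hz⟩ := hz
    obtain ⟨hk, hz⟩ := cyc_iff.1 hz
    have he : multibrotSet n = Pool.Agent.Multibrot.MM n := Pool.Agent.Multibrot.MM_eq hn
    have hLex : ∃ z0 : ℂ, Pool.Agent.PLim.IsLimb n k p q r z0 A := by
      rw [← Pool.Agent.PLim.isL_iff, ← he]
      exact ⟨hk, hp, hpq, hcop, ⟨z, hz.fix, hz.mul⟩, h0, hAU, hAV⟩
    obtain ⟨z0, hL⟩ := hLex
    have hLz : Pool.Agent.PLim.IsLimb n k p q r z A :=
      ⟨hL.hk, hL.hp, hL.hpq, hL.cop, hz.fix, hz.mul, hL.sub, hL.op, hL.cl, hL.nr, hL.n0⟩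
    obtain ⟨hd0, hdF⟩ := fz_pq hp hpq
    obtain ⟨d, hd⟩ : ∃ d : ℝ, d = min ((p : ℝ) / q) (1 - p / q) := ⟨_, rfl⟩
    rw [← hd] at hd0 hdF hlt
    have hk' : (1 : ℝ) ≤ k := by exact_mod_cast hk
    have hq : (0 : ℝ) < q := by exact_mod_cast hp.trans hpq
    have hlk : 0 < Real.log n * k := by positivity
    have ha2 : 0 < C₂ * a := by positivity
    obtain ⟨b, v₀, hb, hv₀, hr, hall⟩ := hlimb k p q r z A d hLz hz hd0 hdF (by nlinarith)
    refine ⟨b, v₀, cyc_iff.2 ⟨hk, hb⟩, hv₀, hr, ?_⟩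
    have e2 : ((n - 1 : ℕ) : ℝ) = (n : ℝ) - 1 := by
      rw [Nat.cast_sub (by omega)]
      simp
    intro c hc
    constructor
    · obtain ⟨v, hv, hvc, hvd⟩ := hall c hc
      refine ⟨v, hv, hvc, ?_⟩
      rw [e2] at hvd
      rw [dist_eq_norm, le_div_iff₀ (mul_pos (by linarith) hq)]
      refine hvd.trans ?_
      nlinarith
    · intro δ hδ hF hlt2
      have hLp : 0 < L δ := L_pos hδ (far_half hF)
      have hpt := (hgl k b hk hb)
      have hF' : FarN (6 * (R + 1)) δ (2 * Real.pi * p / q) := by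
        rw [← far_iff]
        have e : 2 * Real.pi * p / q / (2 * Real.pi) = (p / q : ℝ) := by
          have : (Real.pi : ℝ) ≠ 0 := Real.pi_ne_zero
          field_simp
        rw [e]
        exact hF
      have hv₀D : v₀ ∈ DD n (6 * (R + 1)) t := by
        refine E_sub hn ht0 ?_
        show v₀ ^ (n - 1) ∈ V R t
        rw [hv₀]
        exact root_mem ht0 hδ hF
      have hpp := (hgl k b hk hb).pt v₀ hv₀D
      have hL' : Pool.Agent.PLim.IsLimb n k p q (P k b v₀) (X k b v₀) A := by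
        have hfix := hpp.fix
        have hmul := hpp.mul
        rw [hv₀] at hmul
        rw [hr] at hfix hmul ⊢
        exact ⟨hL.hk, hL.hp, hL.hpq, hL.cop, hfix, hmul, hL.sub, hL.op, hL.cl, hL.nr, hL.n0⟩
      obtain ⟨-, h6⟩ := hlim n (a * Real.log n) hn (by positivity) (hO n hn) k p q b v₀ _ _ A δ hk
        (hgl k b hk hb) hv₀ hL' hδ hF' (by
          rw [← L_eq]
          nlinarith) c hc
      rw [hr, ← L_eq] at h6
      have hdm : 0 ≤ Metric.diam (P k b '' Metric.ball 0 1) := Metric.diam_nonneg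
      rw [dist_eq_norm, div_mul_eq_mul_div, le_div_iff₀ (mul_pos hq hLp)]
      refine h6.trans ?_
      have h7 : C₂ * (a * Real.log n) * k ≤ (C₁ + C₂ * a) * Real.log n * k := by nlinarith
      exact mul_le_mul_of_nonneg_right h7 hdm
  · intro k k' a v z w ha hv hkk hz h1
    obtain ⟨hk, hp⟩ := cyc_iff.1 ha
    have h2 := hP k a hk hp
    have hb : Metric.ball (0 : ℂ) 1 ⊆ DW n (Oz κ) := fun u hu => mem_dw hκ (by
      rw [← ht]
      have h3 : ‖u ^ (n - 1)‖ < 1 := by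
        rw [norm_pow]
        exact pow_lt_one₀ (norm_nonneg _) (by rwa [mem_ball_zero_iff] at hu) (by omega)
      show ‖u ^ (n - 1)‖ < 1 + t * (u ^ (n - 1)).arg ^ 2
      have h4 : 0 ≤ t * (u ^ (n - 1)).arg ^ 2 := by positivity
      linarith)
    have hA : Pool.Agent.CGP.Att n k (P k a) (X k a) := by
      refine ⟨hn, hk, h2.dΨ.mono hb, h2.dX.continuousOn.mono hb, fun u hu => (h2.pt u (hb hu)).fix,
        fun u hu => ?_⟩
      rw [(h2.pt u (hb hu)).mul, norm_pow]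
      exact pow_lt_one₀ (norm_nonneg _) (by rwa [mem_ball_zero_iff] at hu) (by omega)
    have h3 := hgap n k k' (P k a) (X k a) hA (by rw [h2.zero]; exact ha.2.1) hz.1 hkk v
      (by rwa [mem_ball_zero_iff]) z hz.2.1 hz.2.2.1 (by
        have h4 : Pool.Agent.PLim.Rho n k' (P k a v) z = w := hz.2.2.2
        rw [h4]
        exact h1)
    have h4 : Pool.Agent.PLim.Rho n k' (P k a v) z = w := hz.2.2.2
    rw [h4] at h3
    nlinarith

end Pool.Agent.Results.MP_fcb70f_an.Extension
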