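import Pool.Agent.MEZ.AllZ
import Pool.Agent.PLim.Final
import Pool.Prelude.Def_F_c31e40fa

set_option autoImplicit false

open N62a1eb23 Topology

namespace Pool.Agent.Results.MP_fcb70f_an.LinearLimbs

/-- `z` is a periodic point of `z ^ n + c` of exact period `k`, with multiplier `w`. -/
def Cycle (n k : ℕ) (c z w : ℂ) : Prop :=
  1 ≤ k ∧ (fun z => z ^ n + c)^[k] z = z ∧
    (∀ j : ℕ, 0 < j → j < k → (fun z => z ^ n + c)^[j] z ≠ z) ∧
    deriv (fun z => z ^ n + c)^[k] z = w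

/-- `A` is a `p / q`-limb of period `k` with root `r` of the Multibrot set `M` of power `n`: the map
`z ^ n + r` has a cycle of exact period `k` with multiplier `exp (2 π i p / q)`, where `0 < p < q`
are coprime, and `A` is an open and closed subset of `M \ {r}` which does not contain `0`. -/
def IsLimb (n k p q : ℕ) (r : ℂ) (A : Set ℂ) : Prop :=
  0 < p ∧ p < q ∧ p.Coprime q ∧
  (∃ z : ℂ, Cycle n k r z (Complex.exp (2 * Real.pi * Complex.I * p / q))) ∧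
  (0 : ℂ) ∉ A ∧ (∃ U : Set ℂ, IsOpen U ∧ A = (multibrotSet n \ {r}) ∩ U) ∧
  ∃ V : Set ℂ, IsOpen V ∧ (multibrotSet n \ {r}) \ A = (multibrotSet n \ {r}) ∩ V

/-- The distance of `p / q` from the integers (`0 < p < q`). -/
noncomputable def d (p q : ℕ) : ℝ := min ((p : ℝ) / q) (1 - p / q)

/-- `c` lies, for unboundedly large `q`, in a `p / q`-limb of some period `k` for which
`q (d p q) ^ 2 > C k log n`. -/
def Deep (n : ℕ) (C : ℝ) (c : ℂ) : Prop :=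
  ∀ N : ℕ, ∃ (k p q : ℕ) (r : ℂ) (A : Set ℂ), IsLimb n k p q r A ∧ c ∈ A ∧ N ≤ q ∧
    C * Real.log n * k < q * d p q ^ 2

/-- the distance of `p / q` from the integers -/
lemma fz_pq {p q : ℕ} (hp : 0 < p) (hpq : p < q) :
    0 < d p q ∧ Pool.Agent.MEZ.Fz (d p q) (2 * Real.pi * p / q) := by
  have hq : (0 : ℝ) < q := by exact_mod_cast hp.trans hpq
  have h1 : (0 : ℝ) < p / q := div_pos (by exact_mod_cast hp) hq
  have h2 : (p : ℝ) / q < 1 := by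
    rw [div_lt_one hq]
    exact_mod_cast hpq
  refine ⟨lt_min h1 (by linarith), fun m => ?_⟩
  have e : 2 * Real.pi * p / q / (2 * Real.pi) = (p / q : ℝ) := by
    have : (Real.pi : ℝ) ≠ 0 := Real.pi_ne_zero
    field_simp
  rw [e]
  rcases le_or_gt m 0 with hm | hm
  · have hm' : (m : ℝ) ≤ 0 := by exact_mod_cast hm
    refine (min_le_left _ _).trans ?_
    have := le_abs_self ((p : ℝ) / q - m)
    linarith
  · have hm' : (1 : ℝ) ≤ m := by exact_mod_cast hm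
    refine (min_le_right _ _).trans ?_
    have := neg_le_abs ((p : ℝ) / q - m)
    linarith

lemma le_d {p q : ℕ} (hp : 0 < p) (hpq : p < q) {δ : ℝ}
    (h : Pool.Agent.MEZ.Fz δ (2 * Real.pi * p / q)) : δ ≤ d p q := by
  have hq : (0 : ℝ) < q := by exact_mod_cast hp.trans hpq
  have h2 : (p : ℝ) / q < 1 := by
    rw [div_lt_one hq]
    exact_mod_cast hpq
  have e : 2 * Real.pi * p / q / (2 * Real.pi) = (p / q : ℝ) := by
    have : (Real.pi : ℝ) ≠ 0 := Real.pi_ne_zero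
    field_simp
  have h0 := h 0
  have h1 := h 1
  rw [e] at h0 h1
  rw [Int.cast_zero, sub_zero, abs_of_nonneg (by positivity)] at h0
  rw [Int.cast_one, abs_of_nonpos (by linarith)] at h1
  exact le_min h0 (by linarith)

/-- **Linear limb bounds and local connectivity of the Multibrot sets.** -/
theorem result : ∃ C : ℝ, ∀ n : ℕ, 2 ≤ n →
    (∀ (k p q : ℕ) (r : ℂ) (A : Set ℂ), IsLimb n k p q r A →
      ∀ c ∈ A, dist c r ≤ C * (Real.log n ^ 2 / n) * (k / (q * d p q ^ 2))) ∧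
    (∀ c : ℂ, Deep n C c → ∀ N ∈ 𝓝 c, ∃ S : Set ℂ, S ⊆ multibrotSet n ∩ N ∧ IsConnected S ∧
      IsClosed S ∧ S ∈ 𝓝[multibrotSet n] c) ∧
    ∀ c₀ ∈ frontier (multibrotSet n), ∀ N ∈ 𝓝 c₀, ¬ (N ∩ {c : ℂ | Deep n C c}).Countable := by
  obtain ⟨-, C, -, hC, -, -, hC2⟩ := Pool.Agent.MEZ.a_FINZ
  refine ⟨C, fun n hn => ?_⟩
  have he : multibrotSet n = Pool.Agent.Multibrot.MM n := Pool.Agent.Multibrot.MM_eq hn
  have hlimb : ∀ (k p q : ℕ) (r : ℂ) (A : Set ℂ), IsLimb n k p q r A ↔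
      ∃ z0 : ℂ, Pool.Agent.PLim.IsLimb n k p q r z0 A ∧ Pool.Agent.MEX.Exa n k r z0 := by
    intro k p q r A
    constructor
    · rintro ⟨hp, hpq, hcop, ⟨z, hk, hz, hex, hr⟩, h0, hU, hV⟩
      have hL : ∃ z0 : ℂ, Pool.Agent.PLim.IsLimb n k p q r z0 A := by
        rw [← Pool.Agent.PLim.isL_iff, ← he]
        exact ⟨hk, hp, hpq, hcop, ⟨z, hz, hr⟩, h0, hU, hV⟩
      obtain ⟨z0, hL⟩ := hL
      exact ⟨z, ⟨hL.hk, hL.hp, hL.hpq, hL.cop, hz, hr, hL.sub, hL.op, hL.cl, hL.nr, hL.n0⟩, hex⟩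
    · rintro ⟨z0, hL, hex⟩
      have h1 : ∃ z0 : ℂ, Pool.Agent.PLim.IsLimb n k p q r z0 A := ⟨z0, hL⟩
      rw [← Pool.Agent.PLim.isL_iff, ← he] at h1
      obtain ⟨hk, hp, hpq, hcop, -, h0, hU, hV⟩ := h1
      exact ⟨hp, hpq, hcop, ⟨z0, hk, hL.fix, hex, hL.rho⟩, h0, hU, hV⟩
  have hdeep : ∀ c : ℂ, Deep n C c ↔ Pool.Agent.MEZ.InfZ n (C * Real.log n) c := by
    intro c
    constructor
    · intro h N
      obtain ⟨k, p, q, r, A, hA, hcA, hN, hlt⟩ := h N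
      obtain ⟨z0, hz, hex⟩ := (hlimb k p q r A).1 hA
      obtain ⟨h1, h2⟩ := fz_pq hz.hp hz.hpq
      exact ⟨k, p, q, r, z0, A, d p q, hz, hex, hcA, hN, h1, h2, hlt⟩
    · intro h N
      obtain ⟨k, p, q, r, z0, A, δ, hA, hex, hcA, hN, hδ, hF, hlt⟩ := h N
      refine ⟨k, p, q, r, A, (hlimb k p q r A).2 ⟨z0, hA, hex⟩, hcA, hN, hlt.trans_le ?_⟩
      have h1 := le_d hA.hp hA.hpq hF
      gcongr
  obtain ⟨h1, h2, h3⟩ := hC2 n hn
  refine ⟨?_, ?_, ?_⟩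
  · intro k p q r A hA c hc
    obtain ⟨z0, hz, hex⟩ := (hlimb k p q r A).1 hA
    obtain ⟨hd, hF⟩ := fz_pq hz.hp hz.hpq
    have h4 := h1 k p q r z0 c A (d p q) hz hex hd hF hc
    have hq : (0 : ℝ) < q := by exact_mod_cast hz.hp.trans hz.hpq
    rw [dist_eq_norm, ← mul_div_assoc, le_div_iff₀ (by positivity)]
    exact h4
  · intro c hc N hN
    rw [he]
    exact h2 c ((hdeep c).1 hc) N hN
  · intro c₀ hc₀ N hN hcount
    rw [he] at hc₀
    refine h3 c₀ hc₀ N hN (hcount.mono ?_)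
    rintro c ⟨h4, h5⟩
    exact ⟨h4, (hdeep c).2 h5⟩

end Pool.Agent.Results.MP_fcb70f_an.LinearLimbs
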