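import Pool.Agent.CUSP.All6
import Pool.Agent.PSat.Conv
import Pool.Prelude.Def_F_c31e40fa

set_option autoImplicit false

open N62a1eb23 Topology Filter MeasureTheory

namespace Pool.Agent.Results.MP_fcb70f_an.NullSequence

/-- `z` is a periodic point of `z ^ 2 + c` of exact period `k`, with multiplier `w`. -/
def Cycle (k : ℕ) (c z w : ℂ) : Prop :=
  (fun z => z ^ 2 + c)^[k] z = z ∧
    (∀ j : ℕ, 0 < j → j < k → (fun z => z ^ 2 + c)^[j] z ≠ z) ∧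
    deriv (fun z => z ^ 2 + c)^[k] z = w

/-- `P` parametrizes a hyperbolic component of period `K` of the Mandelbrot set by the
multiplier. -/
def Component (K : ℕ) (P : ℂ → ℂ) : Prop :=
  1 ≤ K ∧ DifferentiableOn ℂ P (Metric.ball 0 1) ∧
    ∀ v ∈ Metric.ball (0 : ℂ) 1, ∃ z : ℂ, Cycle K (P v) z v

/-- The component is a satellite component: `K = k b`, and for its root `r₀`, the map `z ^ 2 + r₀`
has a cycle of exact period `k` with multiplier `exp (2 π i a / b)`, where `0 < a < b` are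
coprime. -/
def Satellite (K : ℕ) (P : ℂ → ℂ) : Prop :=
  ∃ (k a b : ℕ) (r₀ z₀ : ℂ), K = k * b ∧ 0 < a ∧ a < b ∧ a.Coprime b ∧
    Tendsto P (𝓝[Metric.ball 0 1] 1) (𝓝 r₀) ∧
    Cycle k r₀ z₀ (Complex.exp (2 * Real.pi * Complex.I * a / b))

/-- `A` is a `p / q`-limb of the component parametrized by `P`, with root `r`: `P v` tends to `r` as
`v` tends to `exp (2 π i p / q)` in the unit disc, where `0 < p < q` are coprime, and `A` is an open
and closed subset of `M \ {r}` which does not contain `0`. -/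
def IsLimb (P : ℂ → ℂ) (p q : ℕ) (r : ℂ) (A : Set ℂ) : Prop :=
  0 < p ∧ p < q ∧ p.Coprime q ∧
  Tendsto P (𝓝[Metric.ball 0 1] (Complex.exp (2 * Real.pi * Complex.I * p / q))) (𝓝 r) ∧
  (0 : ℂ) ∉ A ∧ (∃ U : Set ℂ, IsOpen U ∧ A = (multibrotSet 2 \ {r}) ∩ U) ∧
  ∃ V : Set ℂ, IsOpen V ∧ (multibrotSet 2 \ {r}) \ A = (multibrotSet 2 \ {r}) ∩ V

/-- The parameters `c` for which `z ^ 2 + c` has an attracting cycle. -/
def Hyperbolic : Set ℂ :=
  {c : ℂ | ∃ (k : ℕ) (z : ℂ), 1 ≤ k ∧ (fun z => z ^ 2 + c)^[k] z = z ∧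
    ‖deriv (fun z => z ^ 2 + c)^[k] z‖ < 1}

/-- The component parametrized by `P`. -/
def Im (P : ℂ → ℂ) : Set ℂ := P '' Metric.ball 0 1

/-- `U` is a hyperbolic component. -/
def IsComponent (U : Set ℂ) : Prop := ∃ (K : ℕ) (P : ℂ → ℂ), Component K P ∧ U = Im P

/-- The area. -/
noncomputable def area (U : Set ℂ) : ℝ := (volume U).toReal

/-- The number `D K q / min (p, q - p) ^ 2`. -/
noncomputable def σ (D : ℝ) (K p q : ℕ) : ℝ := D * K * q / ((min p (q - p) : ℕ) : ℝ) ^ 2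

/-- `x.1` is a component, of some period `K`, with a limb of rotation number `x.2.1 / x.2.2` and
diameter at least `ε`, where `D K q ≤ min (p, q - p) ^ 2` for `p = x.2.1`, `q = x.2.2`. -/
def Big (D ε : ℝ) (x : Set ℂ × ℕ × ℕ) : Prop :=
  ∃ (K : ℕ) (P : ℂ → ℂ) (r : ℂ) (A : Set ℂ), Component K P ∧ x.1 = Im P ∧
    IsLimb P x.2.1 x.2.2 r A ∧ σ D K x.2.1 x.2.2 ≤ 1 ∧ ε ≤ Metric.diam A

/-- The second derivative at `z` of the iterate of order `k` of `z ^ 2 + c`. -/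
noncomputable def Dzz (k : ℕ) (c z : ℂ) : ℂ := deriv (deriv (fun z => z ^ 2 + c)^[k]) z

/-- The third derivative at `z` of the iterate of order `k` of `z ^ 2 + c`. -/
noncomputable def Dzzz (k : ℕ) (c z : ℂ) : ℂ :=
  deriv (deriv (deriv (fun z => z ^ 2 + c)^[k])) z

/-- The derivative at `c` of the iterate of order `k` of `z ^ 2 + c`, as a function of `c`. -/
noncomputable def Dc (k : ℕ) (c z : ℂ) : ℂ :=
  deriv (fun c' : ℂ => (fun z => z ^ 2 + c')^[k] z) c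

/-- **The hyperbolic components of the Mandelbrot set form a null sequence.** -/
theorem result :
    -- (0) the components are the connected components of the hyperbolic locus
    ((∀ (K : ℕ) (P : ℂ → ℂ), Component K P → ∀ c ∈ Im P,
        connectedComponentIn Hyperbolic c = Im P) ∧
      ∀ c ∈ Hyperbolic, ∃ (K : ℕ) (P : ℂ → ℂ), Component K P ∧ c ∈ Im P) ∧
    (∃ C : ℝ, 0 < C ∧
      -- (1) all components
      (∀ U : Set ℂ, IsComponent U →
        Metric.diam U ^ 2 ≤ C * area U * (1 + |Real.log (area U)|)) ∧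
      (∀ s : Finset (Set ℂ), (∀ U ∈ s, IsComponent U) →
        ∑ U ∈ s, Metric.diam U ^ 2 / (1 + |Real.log (Metric.diam U)|) ≤ C) ∧
      (∀ ε : ℝ, 0 < ε → {U : Set ℂ | IsComponent U ∧ ε ≤ Metric.diam U}.Finite ∧
        ({U : Set ℂ | IsComponent U ∧ ε ≤ Metric.diam U}.ncard : ℝ) ≤
          C * (1 + |Real.log ε|) / ε ^ 2) ∧
      -- (2) the cycles with multiplier one
      (∀ (k : ℕ) (c z : ℂ), 1 ≤ k → Cycle k c z 1 →
        ‖Dzzz k c z‖ ≤ C * ‖Dzz k c z‖ ^ 2 ∧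
        1 ≤ C * ‖Dzz k c z * Dc k c z‖ ∧
        HasSum (fun y : {y : ℂ | ∃ n : ℕ, (fun z => z ^ 2 + c)^[n] y = z} =>
          ((deriv (fun z => z ^ 2 + c)^[sInf {n : ℕ | (fun z => z ^ 2 + c)^[n] y = z}] y) ^ 2)⁻¹)
          (3 / 4 * Dzz k c z / Dc k c z)) ∧
      -- (3) the roots
      ∀ (K : ℕ) (P : ℂ → ℂ), Component K P →
        ∃ r : ℂ, Tendsto P (𝓝[Metric.ball 0 1] 1) (𝓝 r) ∧
          (∀ v ∈ Metric.ball (0 : ℂ) 1, ‖P v - r‖ * (1 - ‖v‖ ^ 2) ≤ C * ‖1 - v‖ ^ 2) ∧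
          (¬ Satellite K P →
            (∀ v ∈ Metric.ball (0 : ℂ) 1,
              ‖P v - r‖ * (1 - ‖v‖ ^ 2) ^ 2 ≤ C * ‖1 - v‖ ^ 4) ∧
            ∃ z : ℂ, Cycle K r z 1 ∧ Tendsto
              (fun v => (1 + 2 * (Dzz K r z * Dc K r z) * (P v - r) / (1 - v) ^ 2) / (1 - v))
              (𝓝[Metric.ball 0 1] 1) (𝓝 (-(2 / 3) * Dzzz K r z / Dzz K r z ^ 2)))) ∧
    -- (4) the limbs of all components
    ∃ D : ℝ, 1 ≤ D ∧
      (∀ (K p q : ℕ) (P : ℂ → ℂ) (r : ℂ) (A : Set ℂ), Component K P → IsLimb P p q r A →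
        σ D K p q ≤ 1 →
        Metric.diam A ≤ σ D K p q * area (Im P) ^ (1 / 2 - σ D K p q / 4) *
          (1 + |Real.log (area (Im P))|)) ∧
      ∀ ε : ℝ, 0 < ε → {x : Set ℂ × ℕ × ℕ | Big D ε x}.Finite ∧
        ({U : Set ℂ | ∃ y : ℕ × ℕ, Big D ε (U, y)}.ncard : ℝ) ≤
          D * (1 + |Real.log ε|) ^ 4 / ε ^ 4 := by
  have he : multibrotSet 2 = Pool.Agent.Multibrot.MM 2 := Pool.Agent.Multibrot.MM_eq le_rfl
  have hcyc : ∀ (k : ℕ) (c z w : ℂ), Cycle k c z w ↔ Pool.Agent.MEY.Pt 2 k c z w := by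
    intro k c z w
    constructor
    · rintro ⟨h1, h2, h3⟩
      exact ⟨h1, h2, h3⟩
    · rintro ⟨h1, h2, h3⟩
      exact ⟨h1, h2, h3⟩
  have hcomp : ∀ (K : ℕ) (P : ℂ → ℂ), Component K P ↔ Pool.Agent.PSat.Comp K P := by
    intro K P
    constructor
    · rintro ⟨h1, h2, h3⟩
      refine ⟨h1, h2, fun v hv => ?_⟩
      obtain ⟨z, hz⟩ := h3 v hv
      exact ⟨z, (hcyc _ _ _ _).1 hz⟩
    · rintro ⟨h1, h2, h3⟩
      refine ⟨h1, h2, fun v hv => ?_⟩
      obtain ⟨z, hz⟩ := h3 v hv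
      exact ⟨z, (hcyc _ _ _ _).2 hz⟩
  have hsat : ∀ (K : ℕ) (P : ℂ → ℂ), Satellite K P ↔ Pool.Agent.PSat.Sat K P := by
    intro K P
    constructor
    · rintro ⟨k, p, q, r0, z0, h1, h2, h3, h4, h5, h6⟩
      exact ⟨k, p, q, r0, z0, h1, h2, h3, h4, h5, (hcyc _ _ _ _).1 h6⟩
    · rintro ⟨k, p, q, r0, z0, h1, h2, h3, h4, h5, h6⟩
      exact ⟨k, p, q, r0, z0, h1, h2, h3, h4, h5, (hcyc _ _ _ _).2 h6⟩
  have hlimb : ∀ (P : ℂ → ℂ) (p q : ℕ) (r : ℂ) (A : Set ℂ), IsLimb P p q r A ↔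
      Pool.Agent.PSat.Lmb P p q r A := by
    intro P p q r A
    rw [← Pool.Agent.PSat.lmb_iff, ← he]
    rfl
  have hIs : ∀ U : Set ℂ, IsComponent U ↔ Pool.Agent.CUSP.IsHC U := by
    intro U
    simp only [IsComponent, Pool.Agent.CUSP.IsHC, hcomp, Im]
  have hBig : ∀ (D ε : ℝ) (x : Set ℂ × ℕ × ℕ), Big D ε x ↔ Pool.Agent.AEN.BigL D ε x := by
    intro D ε x
    simp only [Big, Pool.Agent.AEN.BigL, hcomp, hlimb, Im, σ, Pool.Agent.AEN.sg]
  have hHyp : Hyperbolic = Pool.Agent.AEN.Hyp := rfl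
  have hzz : ∀ (k : ℕ) (c z : ℂ), Pool.Agent.CUSP.Gzz k c z = Dzz k c z := fun _ _ _ => rfl
  have hzzz : ∀ (k : ℕ) (c z : ℂ), Pool.Agent.CUSP.G3 k c z = Dzzz k c z := fun _ _ _ => rfl
  have hdc : ∀ (k : ℕ) (c z : ℂ), Pool.Agent.CUSP.Gc k c z = Dc k c z := fun _ _ _ => rfl
  have hC := Pool.Agent.AEN.a_CCP
  obtain ⟨C1, hC1, h1, h2, h3, h4⟩ := Pool.Agent.CUSP.a_FINC3 Pool.Agent.MEZ.a_NCZ
    Pool.Agent.MEZ.a_SECZ
  obtain ⟨C2, hC2, h5⟩ := Pool.Agent.CUSP.a_IDX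
  obtain ⟨κ, hκ, h6⟩ := Pool.Agent.CUSP.a_P0X
  obtain ⟨D, hD1, h7, h8⟩ := Pool.Agent.AEN.a_FIN3 Pool.Agent.MEZ.a_NCZ
  obtain ⟨C, hCd⟩ : ∃ C : ℝ, C = C1 + C2 + 1 / κ := ⟨_, rfl⟩
  have hk1 : 0 < 1 / κ := by positivity
  have e1 : C1 ≤ C := by rw [hCd]; linarith
  have e2 : C2 ≤ C := by rw [hCd]; linarith
  have e3 : 1 / κ ≤ C := by rw [hCd]; linarith
  have hC0 : 0 < C := by linarith
  simp only [hcomp, hIs, hBig, hlimb, hsat, Im, area, σ]
  refine ⟨⟨?_, ?_⟩, ⟨C, hC0, ?_, ?_, ?_, ?_, ?_⟩, D, hD1, h7, h8⟩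
  · rw [hHyp]
    exact hC.1
  · rw [hHyp]
    exact hC.2
  · intro U hU
    refine (h1 U hU).trans ?_
    have := abs_nonneg (Real.log (volume U).toReal)
    have : 0 ≤ (volume U).toReal := ENNReal.toReal_nonneg
    gcongr
  · intro s hs
    exact (h2 s hs).trans e1
  · intro ε hε
    obtain ⟨g1, g2⟩ := h3 ε hε
    refine ⟨g1, g2.trans ?_⟩
    have := abs_nonneg (Real.log ε)
    gcongr
  · intro k c z hk hcy
    have hPt := (hcyc _ _ _ _).1 hcy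
    refine ⟨?_, ?_, ?_⟩
    · have g := h5 k c z hk hPt
      rw [hzz, hzzz] at g
      refine g.trans ?_
      gcongr
    · have g := h6 k c z hk hPt
      have g1 : κ ≤ ‖Dzz k c z * Dc k c z‖ := by
        have g2 : κ ≤ ‖Dzz k c z / 2‖ * ‖Dc k c z‖ := g
        rw [norm_div, Complex.norm_ofNat] at g2
        rw [norm_mul]
        have g3 : 0 ≤ ‖Dzz k c z‖ * ‖Dc k c z‖ := by positivity
        linarith
      calc (1 : ℝ) = 1 / κ * κ := by field_simp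
        _ ≤ C * ‖Dzz k c z * Dc k c z‖ := mul_le_mul e3 g1 hκ.le hC0.le
    · exact Pool.Agent.CUSP.a_EXP k c z hk hPt
  · intro K P hP
    obtain ⟨r, g1, g2, g3⟩ := h4 K P hP
    refine ⟨r, g1, fun v hv => (g2 v hv).trans ?_, fun hns => ⟨fun v hv => ?_, ?_⟩⟩
    · gcongr
    · refine (g3 hns v hv).trans ?_
      gcongr
    · obtain ⟨r', z, k1, k2, k3, k5⟩ :=
        Pool.Agent.CUSP.a_CS3 Pool.Agent.MEZ.a_NCZ K P hP hns
      have hne : (𝓝[Metric.ball (0 : ℂ) 1] 1).NeBot := by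
        rw [← mem_closure_iff_nhdsWithin_neBot, closure_ball _ one_ne_zero]
        simp
      have hr : r' = r := tendsto_nhds_unique k1 g1
      subst hr
      rw [hzz, hdc] at k3
      rw [hzz, hdc, hzzz] at k5
      refine ⟨z, (hcyc _ _ _ _).2 k2, ?_⟩
      have n1 : Dzz K r' z ≠ 0 := left_ne_zero_of_mul k3
      have n2 : Dc K r' z ≠ 0 := right_ne_zero_of_mul k3
      have k6 := k5.const_mul (2 * (Dzz K r' z * Dc K r' z))
      have e4 : 2 * (Dzz K r' z * Dc K r' z) *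
          -(Dzzz K r' z / (3 * (Dzz K r' z ^ 3 * Dc K r' z))) =
          -(2 / 3) * Dzzz K r' z / Dzz K r' z ^ 2 := by
        field_simp
      rw [e4] at k6
      refine k6.congr' ?_
      filter_upwards [self_mem_nhdsWithin] with v hv
      have hv1 : (1 : ℂ) - v ≠ 0 := by
        intro h0
        have h9 : v = 1 := (sub_eq_zero.1 h0).symm
        rw [h9, Metric.mem_ball, dist_zero_right, norm_one] at hv
        exact lt_irrefl _ hv
      field_simp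
      ring

end Pool.Agent.Results.MP_fcb70f_an.NullSequence
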