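import Pool.Agent.PSat.All3
import Pool.Agent.PSat.Conv
import Pool.Prelude.Def_F_c31e40fa

set_option autoImplicit false

open N62a1eb23 Topology Filter

namespace Pool.Agent.Results.MP_fcb70f_an.SatelliteLimbs

/-- `z` is a periodic point of `z ^ 2 + c` of exact period `k`, with multiplier `w`. -/
def Cycle (k : ℕ) (c z w : ℂ) : Prop :=
  (fun z => z ^ 2 + c)^[k] z = z ∧
    (∀ j : ℕ, 0 < j → j < k → (fun z => z ^ 2 + c)^[j] z ≠ z) ∧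
    deriv (fun z => z ^ 2 + c)^[k] z = w

/-- `P` parametrizes a hyperbolic component of period `K` of the Mandelbrot set by the
multiplier. -/
def Component (K : ℕ) (P : ℂ → ℂ) : Prop :=
  1 ≤ K ∧ DifferentiableOn ℂ P (Metric.ball 0 1) ∧
    ∀ v ∈ Metric.ball (0 : ℂ) 1, ∃ z : ℂ, Cycle K (P v) z v

/-- The component is a satellite component: `K = k b`, and for its root `r₀`, the map `z ^ 2 + r₀`
has a cycle of exact period `k` with multiplier `exp (2 π i a / b)`, where `0 < a < b` are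
coprime. -/
def Satellite (K : ℕ) (P : ℂ → ℂ) : Prop :=
  ∃ (k a b : ℕ) (r₀ z₀ : ℂ), K = k * b ∧ 0 < a ∧ a < b ∧ a.Coprime b ∧
    Tendsto P (𝓝[Metric.ball 0 1] 1) (𝓝 r₀) ∧
    Cycle k r₀ z₀ (Complex.exp (2 * Real.pi * Complex.I * a / b))

/-- `A` is a `p / q`-limb of the component parametrized by `P`, with root `r`: `P v` tends to `r` as
`v` tends to `exp (2 π i p / q)` in the unit disc, where `0 < p < q` are coprime, and `A` is an open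
and closed subset of `M \ {r}` which does not contain `0`. -/
def IsLimb (P : ℂ → ℂ) (p q : ℕ) (r : ℂ) (A : Set ℂ) : Prop :=
  0 < p ∧ p < q ∧ p.Coprime q ∧
  Tendsto P (𝓝[Metric.ball 0 1] (Complex.exp (2 * Real.pi * Complex.I * p / q))) (𝓝 r) ∧
  (0 : ℂ) ∉ A ∧ (∃ U : Set ℂ, IsOpen U ∧ A = (multibrotSet 2 \ {r}) ∩ U) ∧
  ∃ V : Set ℂ, IsOpen V ∧ (multibrotSet 2 \ {r}) \ A = (multibrotSet 2 \ {r}) ∩ V

/-- A tower: for every `m`, `P m` is a satellite component of period `K m`, `A m` is a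
`p m / q m`-limb of it with root `r m`, the component `P (m + 1)`, of period `K m * q m`, has the
root `r m` and is contained in `A m`, and `A (m + 1)` is contained in `A m`. -/
def Tower (K p q : ℕ → ℕ) (P : ℕ → ℂ → ℂ) (r : ℕ → ℂ) (A : ℕ → Set ℂ) : Prop :=
  ∀ m : ℕ, Component (K m) (P m) ∧ Satellite (K m) (P m) ∧
    IsLimb (P m) (p m) (q m) (r m) (A m) ∧ K (m + 1) = K m * q m ∧
    Tendsto (P (m + 1)) (𝓝[Metric.ball 0 1] 1) (𝓝 (r m)) ∧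
    (∀ v ∈ Metric.ball (0 : ℂ) 1, P (m + 1) v ∈ A m) ∧ A (m + 1) ⊆ A m

/-- **Small limbs of the satellite components of the Mandelbrot set, local connectivity and
rigidity at parameters which lie in infinitely many of them.** -/
theorem result : ∃ C : ℝ, 1 ≤ C ∧
    -- (1) the limbs of the satellite components
    (∀ (K : ℕ) (P : ℂ → ℂ), Component K P → Satellite K P →
      ∀ (p q : ℕ) (r : ℂ) (A : Set ℂ), IsLimb P p q r A → ∀ c ∈ A,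
        dist c r ≤ C * (K : ℝ) ^ 10 / q) ∧
    -- (2) local connectivity
    (∀ c : ℂ, (∀ B : ℝ, ∃ (K : ℕ) (P : ℂ → ℂ) (p q : ℕ) (r : ℂ) (A : Set ℂ), Component K P ∧
        Satellite K P ∧ IsLimb P p q r A ∧ c ∈ A ∧ B * (K : ℝ) ^ 10 ≤ q) →
      ∀ N ∈ 𝓝 c, ∃ S : Set ℂ, S ⊆ multibrotSet 2 ∩ N ∧ IsConnected S ∧ IsClosed S ∧
        S ∈ 𝓝[multibrotSet 2] c) ∧
    -- (3) existence of towers
    (∀ (K p q : ℕ → ℕ) (P₀ : ℂ → ℂ), Component (K 0) P₀ → Satellite (K 0) P₀ →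
      (∀ m, 0 < p m ∧ p m < q m ∧ (p m).Coprime (q m) ∧ K (m + 1) = K m * q m ∧
        C * (K m : ℝ) ^ 10 ≤ q m) →
      ∃ (P : ℕ → ℂ → ℂ) (r : ℕ → ℂ) (A : ℕ → Set ℂ), P 0 = P₀ ∧ Tower K p q P r A) ∧
    -- (4) rigidity
    (∀ (K p q : ℕ → ℕ) (P : ℕ → ℂ → ℂ) (r : ℕ → ℂ) (A : ℕ → Set ℂ), Tower K p q P r A →
      (⋂ m, A m).Nonempty ∧ ((∀ B : ℝ, ∃ m, B * (K m : ℝ) ^ 10 ≤ q m) → ∃ c, ⋂ m, A m = {c})) ∧
    -- (5) density
    (∀ S : ℕ → Set (ℕ × ℕ), (∀ m, (S m).Infinite) →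
      (∀ m, ∀ x ∈ S m, 0 < x.1 ∧ x.1 < x.2 ∧ x.1.Coprime x.2) →
      ∀ c₀ ∈ frontier (multibrotSet 2), ∀ N ∈ 𝓝 c₀,
        ¬ (N ∩ {c : ℂ | ∃ (K p q : ℕ → ℕ) (P : ℕ → ℂ → ℂ) (r : ℕ → ℂ) (A : ℕ → Set ℂ),
          Tower K p q P r A ∧ ∀ m, c ∈ A m ∧ (p m, q m) ∈ S m ∧
            (m : ℝ) * (K m : ℝ) ^ 10 ≤ q m}).Countable) ∧
    -- (6) extension across the root
    ∀ (K : ℕ) (P : ℂ → ℂ), Component K P → Satellite K P →
      ∃ Q : ℂ → ℂ, DifferentiableOn ℂ Q (Metric.ball 0 (1 / (C * (K : ℝ) ^ 4))) ∧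
        ∀ ν ∈ Metric.ball (0 : ℂ) (1 / (C * (K : ℝ) ^ 4)), deriv Q ν ≠ 0 ∧
          (ν.re < 0 → P (Complex.exp ν) = Q ν) := by
  have he : multibrotSet 2 = Pool.Agent.Multibrot.MM 2 := Pool.Agent.Multibrot.MM_eq le_rfl
  have hcyc : ∀ (k : ℕ) (c z w : ℂ), Cycle k c z w ↔ Pool.Agent.MEY.Pt 2 k c z w := by
    intro k c z w
    constructor
    · rintro ⟨h1, h2, h3⟩
      exact ⟨h1, h2, h3⟩
    · rintro ⟨h1, h2, h3⟩
      exact ⟨h1, h2, h3⟩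
  have hcomp : ∀ (K : ℕ) (P : ℂ → ℂ), Component K P ↔ Pool.Agent.PSat.Comp K P := by
    intro K P
    constructor
    · rintro ⟨h1, h2, h3⟩
      refine ⟨h1, h2, fun v hv => ?_⟩
      obtain ⟨z, hz⟩ := h3 v hv
      exact ⟨z, (hcyc _ _ _ _).1 hz⟩
    · rintro ⟨h1, h2, h3⟩
      refine ⟨h1, h2, fun v hv => ?_⟩
      obtain ⟨z, hz⟩ := h3 v hv
      exact ⟨z, (hcyc _ _ _ _).2 hz⟩
  have hsat : ∀ (K : ℕ) (P : ℂ → ℂ), Satellite K P ↔ Pool.Agent.PSat.Sat K P := by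
    intro K P
    constructor
    · rintro ⟨k, p, q, r0, z0, h1, h2, h3, h4, h5, h6⟩
      exact ⟨k, p, q, r0, z0, h1, h2, h3, h4, h5, (hcyc _ _ _ _).1 h6⟩
    · rintro ⟨k, p, q, r0, z0, h1, h2, h3, h4, h5, h6⟩
      exact ⟨k, p, q, r0, z0, h1, h2, h3, h4, h5, (hcyc _ _ _ _).2 h6⟩
  have hlimb : ∀ (P : ℂ → ℂ) (p q : ℕ) (r : ℂ) (A : Set ℂ), IsLimb P p q r A ↔
      Pool.Agent.PSat.Lmb P p q r A := by
    intro P p q r A
    rw [← Pool.Agent.PSat.lmb_iff, ← he]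
    rfl
  have htow : ∀ (K p q : ℕ → ℕ) (P : ℕ → ℂ → ℂ) (r : ℕ → ℂ) (A : ℕ → Set ℂ),
      Tower K p q P r A ↔ Pool.Agent.PSat.Twr K p q P r A := by
    intro K p q P r A
    constructor
    · intro h
      exact Pool.Agent.PSat.a_TWR K p q P r A (fun m => (hcomp _ _).1 (h m).1)
        (fun m => (hsat _ _).1 (h m).2.1) (fun m => (h m).2.2.2.1)
        (fun m => (hlimb _ _ _ _ _).1 (h m).2.2.1) (fun m => (h m).2.2.2.2.1)
        (fun m => (h m).2.2.2.2.2.1) (fun m => (h m).2.2.2.2.2.2)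
    · intro h m
      exact ⟨(hcomp _ _).2 (h.comp m), (hsat _ _).2 (h.sat m), (hlimb _ _ _ _ _).2 (h.lmb m),
        h.per m, h.att m, h.mem m, h.nest m⟩
  obtain ⟨C1, hC1, h1, h2⟩ := Pool.Agent.PSat.a_FNM
  obtain ⟨C2, hC2, h3⟩ := Pool.Agent.PSat.a_TWX
  refine ⟨max C1 C2, hC1.trans (le_max_left _ _), fun K P hP hS => ?_, fun c hc N hN => ?_,
    fun K p q P₀ hP hS hpq => ?_, fun K p q P r A hT => ?_, ?_, fun K P hP hS => ?_⟩
  · obtain ⟨-, hA⟩ := h1 K P ((hcomp K P).1 hP) ((hsat K P).1 hS)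
    intro p q r A hL c hc
    have h3 := (hA p q r A ((hlimb P p q r A).1 hL)).2 c hc
    have hq : (0 : ℝ) < q := by exact_mod_cast hL.1.trans hL.2.1
    rw [dist_eq_norm, le_div_iff₀ hq]
    exact h3.trans (mul_le_mul_of_nonneg_right (le_max_left _ _) (by positivity))
  · rw [he]
    refine h2 c (fun B => ?_) N hN
    obtain ⟨K, P, p, q, r, A, h3, h4, h5, h6, h7⟩ := hc B
    exact ⟨K, P, p, q, r, A, (hcomp K P).1 h3, (hsat K P).1 h4, (hlimb P p q r A).1 h5, h6, h7⟩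
  · obtain ⟨P, r, A, h4, h5⟩ := h3 K p q P₀ ((hcomp _ _).1 hP) ((hsat _ _).1 hS)
      (fun m => (hpq m).2.2.2.1) (fun m => ⟨(hpq m).1, (hpq m).2.1, (hpq m).2.2.1,
        (mul_le_mul_of_nonneg_right (le_max_right _ _) (by positivity)).trans
          (hpq m).2.2.2.2⟩)
    exact ⟨P, r, A, h4, (htow _ _ _ _ _ _).2 h5⟩
  · exact Pool.Agent.PSat.a_TWI K p q P r A ((htow _ _ _ _ _ _).1 hT)
  · intro S hS hcop c₀ hc₀ N hN hcount
    rw [he] at hc₀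
    refine Pool.Agent.PSat.a_UN2 S c₀ N hcop hS hc₀ hN (hcount.mono ?_)
    rintro c ⟨h3, K, p, q, P, r, A, h4, h5⟩
    exact ⟨h3, K, p, q, P, r, A, (htow _ _ _ _ _ _).2 h4, h5⟩
  · obtain ⟨⟨Q, hQ1, hQ2⟩, -⟩ := h1 K P ((hcomp K P).1 hP) ((hsat K P).1 hS)
    have hK : (0 : ℝ) < K := by exact_mod_cast hP.1
    have hsub : Metric.ball (0 : ℂ) (1 / (max C1 C2 * (K : ℝ) ^ 4)) ⊆
        Metric.ball 0 (1 / (C1 * (K : ℝ) ^ 4)) := by
      refine Metric.ball_subset_ball (one_div_le_one_div_of_le (by positivity) ?_)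
      exact mul_le_mul_of_nonneg_right (le_max_left _ _) (by positivity)
    exact ⟨Q, hQ1.mono hsub, fun ν hν => hQ2 ν (hsub hν)⟩

end Pool.Agent.Results.MP_fcb70f_an.SatelliteLimbs
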